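import Pool.Agent.helper92.ISA.Defs
import Pool.Agent.helper92.ISO.SpecC

/-!
# Project ISO (MP_069684_lc), version with general target sets `A`: rows `isa:XXX`

Ports of the rows of ISO with the same name: `1 ≤ c ∧ c ≤ κ` is replaced by `c ∈ A` everywhere (decidability: `open Classical in`). Rows of ISO in `from` are `Pool.Agent.ISO.XXX_stmt`. File `Pool/Agent/<seat>/ISA/XXX.lean`,
`import Pool.Agent.helper92.ISA.Spec`, namespace `Pool.Agent.ISA`, `open Pool.Agent.PB Pool.Agent.ISO`, auxiliary lemmas prefixed `XXX_`, theorem `XXX_proof : XXX_stmt`, rows in `from` are hypotheses. (To avoid ambiguous names write `ISA.XXX_stmt`, `ISO.XXX_stmt`.)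
-/

set_option autoImplicit false

open Filter Topology

namespace Pool.Agent.ISA

open Pool.Agent.PB Pool.Agent.ISO

/-- **Row TRN** (short; pure). Transfer: `c ∈ Set.Icc 1 κ ↔ 1 ≤ c ∧ c ≤ κ`; `Val (Icc 1 κ) = ValLe κ` (the filters agree: `Finset.filter_congr`, decidability instances), so `crit m (Icc 1 κ) = theta m κ`; `Icc 1 1 = {1}`. Monotonicity: `Val A' → Val A` for `A ⊆ A'` (weights `≥ 0`). -/
def TRN_stmt : Prop :=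
  (∀ (R κ : ℕ) (q : ℝ) (μ : Finset (Fin R) → ℝ), Val (Set.Icc 1 κ) q μ ↔ ValLe κ q μ) ∧
  (∀ m κ : ℕ, crit m (Set.Icc 1 κ) = theta m κ) ∧ (∀ m : ℕ, crit m {1} = theta m 1) ∧
  ∀ (R m : ℕ) (q : ℝ) (μ : Finset (Fin R) → ℝ) (A A' : Set ℕ), A ⊆ A' → Strat R m μ → Val A' q μ → Val A q μ

/-- **Row THA** (port of THB; short; from ISO.THL, TRN). `A` contains `1`: `Val A q μ` implies `Val {1} q μ = ValLe 1 q μ`, so THL with `κ = 1`, `δ = 1/2` gives `1/2 ≤ q (ln(2m) + 1)`. The last part: `m' ≤ m` (a strategy for `m'` is a strategy for `m`). -/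
def THA_stmt : Prop := ∀ (m : ℕ) (A : Set ℕ), 1 ≤ m → 1 ∈ A →
  (∀ (q : ℝ) (R : ℕ) (μ : Finset (Fin R) → ℝ), Strat R m μ → Val A q μ → crit m A ≤ q) ∧
  (∀ q : ℝ, crit m A < q → ∃ (R : ℕ) (μ : Finset (Fin R) → ℝ), Strat R m μ ∧ Val A q μ) ∧
  0 < crit m A ∧ crit m A ≤ 1 ∧ 1 / 2 ≤ crit m A * (Real.log (2 * m) + 1) ∧
  ∀ m' : ℕ, 1 ≤ m' → m' ≤ m → crit m A ≤ crit m' A

/-- **Row ODD** (short-medium; from ISO.PRM, THA). Upper bound: all pairs in `Fin R` (as row TWO: `|T ∩ K|` is odd iff it is `1`). Lower bound: PRM with `x = 1/2`: `∑_(r odd) C(t,r) 2^(-t) = 1/2` for `t ≥ 1`. -/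
def ODD_stmt : Prop := ∀ m : ℕ, 2 ≤ m → crit m {c | Odd c} = 1 / 2

/-- **Row CMR** (port). -/
def CMR_stmt : Prop := ∀ (m : ℕ) (A : Set ℕ) (R R' : ℕ) (q : ℝ) (μ : Finset (Fin R') → ℝ), 1 ≤ R → Strat R' m μ → Val A q μ →
  ∃ μ' : Finset (Fin R) → ℝ, Strat R m μ' ∧ Val A (q + (m : ℝ) ^ 2 / (2 * R)) μ'

open Classical in
/-- **Row DES** (port; from ISO.PTU). -/
def DES_stmt : Prop := ∀ (R m : ℕ) (A : Set ℕ) (M : ℕ) (q lam : ℝ) (μ : Finset (Fin R) → ℝ), 0 < lam → lam ≤ 1 → Strat R m μ → Val A q μ →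
  ∃ K : Fin M → Finset (Fin R), (∀ e, 1 ≤ (K e).card ∧ (K e).card ≤ m) ∧
    ∀ T : Finset (Fin R), ((Finset.univ.filter fun e => (T ∩ K e).card ∈ A).card : ℝ) ≤ (1 + lam) * q * M + R * Real.log 2 / lam

open Classical in
/-- A design: `M` nonempty sets with at most `m` elements such that every `T` has `|T ∩ K e| ∈ A` for less than `p M` of the `e`. -/
def Dsg {M R : ℕ} (m : ℕ) (A : Set ℕ) (p : ℝ) (K : Fin M → Finset (Fin R)) : Prop :=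
  (∀ e, 1 ≤ (K e).card ∧ (K e).card ≤ m) ∧
    ∀ T : Finset (Fin R), ((Finset.univ.filter fun e => (T ∩ K e).card ∈ A).card : ℝ) < p * M

/-- **Row DNU** (port; from THA, CMR, DES). -/
def DNU_stmt : Prop := ∀ ε : ℝ, 0 < ε → ∃ C : ℝ, ∀ (m : ℕ) (A : Set ℕ) (p : ℝ), 1 ≤ m → 1 ∈ A → (1 + ε) * crit m A ≤ p →
  ∃ (M R : ℕ) (K : Fin M → Finset (Fin R)), 1 ≤ M ∧ (M : ℝ) ≤ C * (m : ℝ) ^ 2 * (1 + Real.log m) ^ 2 ∧
    (R : ℝ) ≤ C * (m : ℝ) ^ 2 * (1 + Real.log m) ∧ Dsg m A p K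

/-- **Row DNV** (transfer; short; from ISO.DNV, TRN). `crit m {1} = theta m 1` and `Design m 1 p K` implies `Dsg m {1} p K`. -/
def DNV_stmt : Prop := ∀ ε : ℝ, 0 < ε → ∃ C : ℝ, ∀ (m : ℕ) (p : ℝ), 1 ≤ m → (1 + ε) * crit m {1} ≤ p →
  ∃ (M R : ℕ) (K : Fin M → Finset (Fin R)), 1 ≤ M ∧ (M : ℝ) ≤ C * (m : ℝ) * (1 + Real.log m) ^ 2 ∧
    (R : ℝ) ≤ C * (m : ℝ) ∧ Dsg m {1} p K

/-- **Row DSP** (port; from DNU, DNV). -/
def DSP_stmt : Prop := ∀ (ε : ℝ) (m : ℕ → ℕ) (A : ℕ → Set ℕ) (p : ℕ → ℝ), 0 < ε → ε < 1 / 2 → (∀ n, 1 ≤ m n) → (∀ n, 1 ∈ A n) →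
  (∀ᶠ n : ℕ in atTop, Abv ε (m n) (A n) n (p n)) →
    ∀ᶠ N : ℕ in atTop, ∃ (M R : ℕ) (K : Fin M → Finset (Fin R)), 1 ≤ M ∧ (M : ℝ) ≤ (N : ℝ) ^ (1 - ε / 2) ∧ R ≤ N ∧
      Dsg (m N) (A N) (p N) K

open Classical in
/-- **Row PRL** (port; from THA, ISO.PTL). -/
def PRL_stmt : Prop := ∀ (R m : ℕ) (A : Set ℕ) (k : ℕ) (lam : ℝ), 1 ≤ m → 1 ∈ A → 0 < lam → lam ≤ 1 →
  ∃ T : Fin k → Finset (Fin R), ∀ K : Finset (Fin R), 1 ≤ K.card → K.card ≤ m →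
    (1 - lam) * crit m A * k - m * Real.log (R + 1) / lam ≤ ((Finset.univ.filter fun i => (T i ∩ K).card ∈ A).card : ℝ)

open Classical in
/-- the test: for less than `p k` of the `W i` the number of the surviving modes is in `A` -/
noncomputable def test {n w M R N k : ℕ} (K : Fin M → Finset (Fin R)) (A : Set ℕ) (p : ℝ) (W : Fin k → BF (N + (R + M * w))) (e0 : Fin M)
    (X : Fin M → Fin n → Bool) (u : Fin M → Fin w → Bool) : BF n := fun x =>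
  decide (((Finset.univ.filter fun i => tcnt K (W i) e0 X u x ∈ A).card : ℝ) < p * k)

/-- **Row TSZ** (port; from ISO.CIR, ISO.CNT, ISO.SEL). -/
def TSZ_stmt : Prop := ∀ (n w M R N k B Q : ℕ) (A : Set ℕ) (p : ℝ) (K : Fin M → Finset (Fin R)) (W : Fin k → BF (N + (R + M * w))) (e0 : Fin M)
  (X : Fin M → Fin n → Bool) (u : Fin M → Fin w → Bool), (∀ i, Size std (W i) B) → B + N + (R + M * w) + k + 2 ≤ Q →
    Size std (test K A p W e0 X u) (30 * Q ^ 3)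

open Classical in
/-- **Row SND** (port; from ISO.WTC). -/
def SND_stmt : Prop := ∀ (n w M R N k m : ℕ) (A : Set ℕ) (p : ℝ) (f : BF (n + w)) (h : M * n ≤ N) (K : Fin M → Finset (Fin R))
  (W : Fin k → BF (N + (R + M * w))) (e0 : Fin M) (X : Fin M → Fin n → Bool) (u : Fin M → Fin w → Bool) (x : Fin n → Bool),
  (∀ e, 1 ≤ (K e).card ∧ (K e).card ≤ m) → (∀ i z, W i z = true → listV f N h K z = true) →
  (∀ x', 1 ≤ wit (listV f N h K) x' → wit (listV f N h K) x' ≤ m →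
    p * k ≤ ((Finset.univ.filter fun i => wit (W i) x' ∈ A).card : ℝ)) →
  (∀ e, e ≠ e0 → ∀ y, f (Fin.append (X e) y) = true ↔ y = u e) → (∀ y, f (Fin.append x y) = false) →
    test K A p W e0 X u x = false

/-- **Row CPL** (port). -/
def CPL_stmt : Prop := ∀ (n w M R N k m : ℕ) (A : Set ℕ) (p : ℝ) (K : Fin M → Finset (Fin R)) (W : Fin k → BF (N + (R + M * w)))
  (X : Fin M → Fin n → Bool) (u : Fin M → Fin w → Bool), 1 ≤ k → 1 ≤ M → Dsg m A p K → ∃ e0, test K A p W e0 X u (X e0) = true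

/-- **Row COR** (port; from ISO.CIR, TSZ, SND, CPL, ISO.GRD). -/
def COR_stmt : Prop := ∀ (n w M R N m B Q : ℕ) (A : Set ℕ) (p : ℝ) (f : BF (n + w)) (h : M * n ≤ N) (K : Fin M → Finset (Fin R)), 1 ≤ M →
  Dsg m A p K → Prun m A p B (listV f N h K) → 2 * B + N + (R + M * w) + 2 ≤ Q →
    ∃ D : BF n, Size std D (Q ^ 10) ∧ (∀ x, wit f x = 1 → D x = true) ∧ ∀ x, wit f x = 0 → D x = false

/-- **Row UNP** (port; from ISO.CIR). -/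
def UNP_stmt : Prop := ∀ (m : ℕ → ℕ) (A : ℕ → Set ℕ) (p : ℕ → ℝ), AllPrun m A p → ∀ c : ℕ, ∃ c' : ℕ, ∀ (n w : ℕ) (f : BF (n + w)),
  w ≤ n ^ c + c → Size std f (n ^ c + c) → Prun (m n) (A n) (p n) (n ^ c' + c') f

/-- **Row PUB** (port; from ISO.LVS, UNP, COR; PB: pDNF). -/
def PUB_stmt : Prop := ∀ (δ : ℝ) (m : ℕ → ℕ) (A : ℕ → Set ℕ) (p : ℕ → ℝ), 0 < δ → AllPrun m A p →
  (∀ᶠ N : ℕ in atTop, ∃ (M R : ℕ) (K : Fin M → Finset (Fin R)), 1 ≤ M ∧ (M : ℝ) ≤ (N : ℝ) ^ (1 - δ) ∧ R ≤ N ∧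
    Dsg (m N) (A N) (p N) K) → PU

/-- **Row LEX** (port; from ISO.CIR, ISO.SEL, ISO.UNN; or from ISO.LEX with `κ = 1`, if `m`, `p` are the same: one witness is in `A`). `Prune` with `κ = 1` gives `wit (W i) x = 1 ∈ A`. -/
def LEX_stmt : Prop := (∀ A : Lang, InNPPoly A → InPPoly A) → ∀ (m : ℕ → ℕ) (A : ℕ → Set ℕ) (p : ℕ → ℝ), (∀ n, 1 ∈ A n) → (∀ n, p n ≤ 1) → AllPrun m A p

/-- **Row PB1** (port; from PRL, ISO.MLS, ISO.TBS). -/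
def PB1_stmt : Prop := ∀ (n w r s m k1 k2 B : ℕ) (A : Set ℕ) (f : BF (n + w)) (lam p : ℝ), 1 ≤ m → 1 ∈ A → 0 < lam → lam ≤ 1 → 1 ≤ k1 → 1 ≤ k2 →
  (m : ℝ) ^ 2 ≤ 2 * 2 ^ r → Size std f s → k1 * k2 + (s + 100 * 2 ^ r * (r + 1) * (w + 1) ^ 2 + 10) ≤ B →
  0 ≤ (1 - lam) * crit m A * k1 - m * Real.log (2 ^ r + 1) / lam →
  0 ≤ (1 - lam) * (1 - (m : ℝ) ^ 2 / (2 * 2 ^ r)) * k2 - n * Real.log 2 / lam →
  p * (k1 * k2 : ℕ) ≤ ((1 - lam) * crit m A * k1 - m * Real.log (2 ^ r + 1) / lam) *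
    ((1 - lam) * (1 - (m : ℝ) ^ 2 / (2 * 2 ^ r)) * k2 - n * Real.log 2 / lam) →
    Prun m A p B f

/-- **Row PB2** (port; from THA, PB1). -/
def PB2_stmt : Prop := ∀ (ε : ℝ) (m : ℕ → ℕ) (A : ℕ → Set ℕ) (p : ℕ → ℝ) (c : ℕ), 0 < ε → (∀ n, 1 ≤ m n) → (∀ n, m n ≤ n ^ c + c) → (∀ n, 1 ∈ A n) →
  (∀ n, p n ≤ (1 - ε) * crit (m n) (A n)) → AllPrun m A p

/-- **Row FIN** (short; from DSP, PUB, ISO.VVA, LEX, PB2, ISO.TWO, ISO.LIM, ODD, TRN, ISO.CIR, ISO.SEL). -/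
def FIN_stmt : Prop :=
  (∀ (ε : ℝ) (m : ℕ → ℕ) (A : ℕ → Set ℕ) (p : ℕ → ℝ), 0 < ε → ε < 1 / 2 → (∀ n, 1 ≤ m n) → (∀ n, 1 ∈ A n) → (∀ n, p n ≤ 1) →
    (∀ᶠ n : ℕ in atTop, Abv ε (m n) (A n) n (p n)) → (AllPrun m A p ↔ ∀ L : Lang, InPPoly L ↔ InNPPoly L)) ∧
  (∀ (ε : ℝ) (m : ℕ → ℕ) (A : ℕ → Set ℕ) (p : ℕ → ℝ) (c : ℕ), 0 < ε → (∀ n, 1 ≤ m n) → (∀ n, m n ≤ n ^ c + c) → (∀ n, 1 ∈ A n) →
    (∀ n, p n ≤ (1 - ε) * crit (m n) (A n)) → AllPrun m A p) ∧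
  crit 2 {1} = 1 / 2 ∧ (∀ m : ℕ, 2 ≤ m → crit m {c | Odd c} = 1 / 2) ∧
  (∀ m κ : ℕ, 1 ≤ κ → κ ≤ m → crit m (Set.Icc 1 κ) ≤ (harmonic κ : ℝ) / (harmonic m : ℝ)) ∧
  ∀ κ : ℕ, 1 ≤ κ → Tendsto (fun m : ℕ => crit m (Set.Icc 1 κ) * Real.log m) atTop (𝓝 (harmonic κ : ℝ))

end Pool.Agent.ISA
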