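import Pool.Agent.helper92.ISA.Spec2

/-! Row HYP of project ISA (MP_069684_lc). -/

set_option autoImplicit false

open Filter Topology

namespace Pool.Agent.ISA

open Pool.Agent.PB Pool.Agent.ISO

theorem HYP_swap (n a b : ℕ) (h : a + b ≤ n) : n.choose a * (n - a).choose b = n.choose b * (n - b).choose a := by
  have h1 := Nat.choose_mul (n := n) (k := a + b) (s := a) (Nat.le_add_right a b)
  have h2 := Nat.choose_mul (n := n) (k := a + b) (s := b) (Nat.le_add_left b a)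
  have e1 : a + b - a = b := by omega
  have e2 : a + b - b = a := by omega
  rw [e1] at h1
  rw [e2] at h2
  rw [← h1, ← h2, Nat.choose_symm_add]

theorem HYP_id (R τ t j : ℕ) (h1 : τ ≤ R) (h2 : t ≤ R) (h3 : j ≤ t) (h4 : j ≤ τ) (h5 : t - j ≤ R - τ) :
    τ.choose j * (R - τ).choose (t - j) * R.choose τ = t.choose j * (R - t).choose (τ - j) * R.choose t := by
  have a1 := Nat.choose_mul (n := R) (k := τ) (s := j) h4
  have a2 := Nat.choose_mul (n := R) (k := t) (s := j) h3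
  have a3 := HYP_swap (R - j) (τ - j) (t - j) (by omega)
  have e1 : R - j - (τ - j) = R - τ := by omega
  have e2 : R - j - (t - j) = R - t := by omega
  rw [e1, e2] at a3
  calc τ.choose j * (R - τ).choose (t - j) * R.choose τ = (R.choose τ * τ.choose j) * (R - τ).choose (t - j) := by ring
    _ = R.choose j * ((R - j).choose (τ - j) * (R - τ).choose (t - j)) := by rw [a1]; ring
    _ = (R.choose j * (R - j).choose (t - j)) * (R - t).choose (τ - j) := by rw [a3]; ring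
    _ = t.choose j * (R - t).choose (τ - j) * R.choose t := by rw [← a2]; ring

theorem HYP_proof (hBIM : BIM_stmt) : HYP_stmt := by
  obtain ⟨hB1, hB2⟩ := hBIM
  intro R τ t j hR hτ ht hj
  have hRp : (0 : ℝ) < R := by exact_mod_cast hR
  have hx0 : (0 : ℝ) ≤ (τ : ℝ) / R := by positivity
  have hx1 : (τ : ℝ) / R ≤ 1 := by
    rw [div_le_one hRp]
    exact_mod_cast hτ
  have htR : (t : ℝ) ≤ R := by exact_mod_cast ht
  have hden : (0 : ℝ) < (R : ℝ) - t + 1 := by linarith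
  have hfac : (1 : ℝ) ≤ ((R : ℝ) + 1) / ((R : ℝ) - t + 1) := by
    rw [le_div_iff₀ hden]
    have : (0 : ℝ) ≤ t := Nat.cast_nonneg t
    linarith
  have hrhs : 0 ≤ ((R : ℝ) + 1) / ((R : ℝ) - t + 1) * ((t.choose j : ℝ) * ((τ : ℝ) / R) ^ j * (1 - (τ : ℝ) / R) ^ (t - j)) := by
    have h1x : 0 ≤ 1 - (τ : ℝ) / R := by linarith
    positivity
  have hCR : (0 : ℝ) < (R.choose t : ℝ) := by exact_mod_cast Nat.choose_pos ht
  have hCτ : (0 : ℝ) < (R.choose τ : ℝ) := by exact_mod_cast Nat.choose_pos hτ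
  rcases Nat.lt_or_ge τ j with hjτ | hjτ
  · rw [Nat.choose_eq_zero_of_lt hjτ]
    simpa using hrhs
  rcases Nat.lt_or_ge (R - τ) (t - j) with h5 | h5
  · rw [Nat.choose_eq_zero_of_lt h5]
    simpa using hrhs
  rcases Nat.eq_zero_or_pos τ with h0 | h0
  · subst h0
    have hj0 : j = 0 := by omega
    subst hj0
    have hd : (R.choose t : ℝ) / (R.choose t : ℝ) = 1 := div_self hCR.ne'
    simp only [Nat.choose_zero_right, Nat.cast_one, Nat.sub_zero, one_mul, Nat.cast_zero, zero_div, pow_zero, sub_zero, one_pow, mul_one]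
    rw [hd]
    exact hfac
  rcases Nat.eq_or_lt_of_le hτ with hτR | hτR
  · subst hτR
    have hjt : j = t := by omega
    subst hjt
    have hd : (τ.choose j : ℝ) / (τ.choose j : ℝ) = 1 := div_self hCR.ne'
    have hxx : (τ : ℝ) / τ = 1 := div_self hRp.ne'
    simp only [Nat.sub_self, Nat.choose_zero_right, Nat.cast_one, mul_one, Nat.choose_self, pow_zero]
    rw [hd, hxx]
    simpa using hfac
  · have hxpos : (0 : ℝ) < (τ : ℝ) / R := by
      have : (0 : ℝ) < τ := by exact_mod_cast h0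
      positivity
    have hxlt : 0 < 1 - (τ : ℝ) / R := by
      have h6 : (τ : ℝ) < R := by exact_mod_cast hτR
      have h7 : (τ : ℝ) / R < 1 := by
        rw [div_lt_one hRp]
        exact h6
      linarith
    obtain ⟨x, hx⟩ : ∃ x : ℝ, x = (τ : ℝ) / R := ⟨_, rfl⟩
    rw [← hx] at hxpos hxlt hx0 hx1 ⊢
    have hiR : τ - j ≤ R - t := by omega
    obtain ⟨i', hi', hb1⟩ := hB1 (R - t) R (τ - j) x hx0 hx1 (Nat.sub_le R t) hiR
    have hb2 := hB2 R τ i' hR hτ hi'
    rw [← hx] at hb2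
    have hcast : (((R - t : ℕ) : ℝ) + 1) = (R : ℝ) - t + 1 := by
      rw [Nat.cast_sub ht]
    rw [hcast] at hb1
    have hfac0 : 0 ≤ ((R : ℝ) + 1) / ((R : ℝ) - t + 1) := by linarith
    have hb3 : ((R - t).choose (τ - j) : ℝ) * x ^ (τ - j) * (1 - x) ^ (R - t - (τ - j)) ≤
        ((R : ℝ) + 1) / ((R : ℝ) - t + 1) * ((R.choose τ : ℝ) * x ^ τ * (1 - x) ^ (R - τ)) :=
      hb1.trans (mul_le_mul_of_nonneg_left hb2 hfac0)
    have hP : 0 < x ^ (τ - j) * (1 - x) ^ (R - t - (τ - j)) := by positivity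
    have e1 : x ^ τ = x ^ j * x ^ (τ - j) := by
      rw [← pow_add]
      congr 1
      omega
    have e2 : (1 - x) ^ (R - τ) = (1 - x) ^ (t - j) * (1 - x) ^ (R - t - (τ - j)) := by
      rw [← pow_add]
      congr 1
      omega
    have hb4 : ((R - t).choose (τ - j) : ℝ) ≤ ((R : ℝ) + 1) / ((R : ℝ) - t + 1) * ((R.choose τ : ℝ) * (x ^ j * (1 - x) ^ (t - j))) := by
      refine le_of_mul_le_mul_right ?_ hP
      calc ((R - t).choose (τ - j) : ℝ) * (x ^ (τ - j) * (1 - x) ^ (R - t - (τ - j)))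
          = ((R - t).choose (τ - j) : ℝ) * x ^ (τ - j) * (1 - x) ^ (R - t - (τ - j)) := by ring
        _ ≤ ((R : ℝ) + 1) / ((R : ℝ) - t + 1) * ((R.choose τ : ℝ) * x ^ τ * (1 - x) ^ (R - τ)) := hb3
        _ = ((R : ℝ) + 1) / ((R : ℝ) - t + 1) * ((R.choose τ : ℝ) * (x ^ j * (1 - x) ^ (t - j))) *
            (x ^ (τ - j) * (1 - x) ^ (R - t - (τ - j))) := by rw [e1, e2]; ring
    have hid : (τ.choose j : ℝ) * ((R - τ).choose (t - j) : ℝ) * (R.choose τ : ℝ) =
        (t.choose j : ℝ) * ((R - t).choose (τ - j) : ℝ) * (R.choose t : ℝ) := by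
      exact_mod_cast HYP_id R τ t j hτ ht hj hjτ h5
    rw [div_le_iff₀ hCR]
    refine le_of_mul_le_mul_right ?_ hCτ
    have htj : (0 : ℝ) ≤ (t.choose j : ℝ) := Nat.cast_nonneg _
    calc (τ.choose j : ℝ) * ((R - τ).choose (t - j) : ℝ) * (R.choose τ : ℝ)
        = ((t.choose j : ℝ) * (R.choose t : ℝ)) * ((R - t).choose (τ - j) : ℝ) := by rw [hid]; ring
      _ ≤ ((t.choose j : ℝ) * (R.choose t : ℝ)) *
          (((R : ℝ) + 1) / ((R : ℝ) - t + 1) * ((R.choose τ : ℝ) * (x ^ j * (1 - x) ^ (t - j)))) :=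
        mul_le_mul_of_nonneg_left hb4 (by positivity)
      _ = ((R : ℝ) + 1) / ((R : ℝ) - t + 1) * ((t.choose j : ℝ) * x ^ j * (1 - x) ^ (t - j)) * (R.choose t : ℝ) * (R.choose τ : ℝ) := by ring

end Pool.Agent.ISA
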