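import Pool.Agent.helper92.ISA.Spec2

/-! Row TRN of project ISA (MP_069684_lc). -/

set_option autoImplicit false

open Filter Topology

namespace Pool.Agent.ISA

open Pool.Agent.PB Pool.Agent.ISO

theorem TRN_val (R κ : ℕ) (q : ℝ) (μ : Finset (Fin R) → ℝ) : Val (Set.Icc 1 κ) q μ ↔ ValLe κ q μ := by
  classical
  have e : ∀ T : Finset (Fin R), (Finset.univ.filter fun K : Finset (Fin R) => (T ∩ K).card ∈ Set.Icc 1 κ) =
      (Finset.univ.filter fun K : Finset (Fin R) => Hit κ T K) := by
    intro T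
    ext K
    simp only [Finset.mem_filter, Finset.mem_univ, true_and, Hit, Set.mem_Icc]
  constructor
  · intro h T
    refine le_trans (le_of_eq ?_) (h T)
    refine Finset.sum_congr ?_ fun _ _ => rfl
    ext K
    simp only [Finset.mem_filter, Finset.mem_univ, true_and, Hit, Set.mem_Icc]
  · intro h T
    refine le_trans (le_of_eq ?_) (h T)
    refine Finset.sum_congr ?_ fun _ _ => rfl
    ext K
    simp only [Finset.mem_filter, Finset.mem_univ, true_and, Hit, Set.mem_Icc]

theorem TRN_crit (m κ : ℕ) : crit m (Set.Icc 1 κ) = theta m κ := by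
  unfold crit theta
  congr 1
  ext q
  constructor
  · rintro ⟨R, μ, h1, h2⟩
    exact ⟨R, μ, h1, (TRN_val R κ q μ).1 h2⟩
  · rintro ⟨R, μ, h1, h2⟩
    exact ⟨R, μ, h1, (TRN_val R κ q μ).2 h2⟩

theorem TRN_proof : TRN_stmt := by
  classical
  refine ⟨TRN_val, TRN_crit, ?_, ?_⟩
  · intro m
    rw [← TRN_crit m 1, Set.Icc_self]
  · intro R m q μ A A' hAA hμ h T
    refine le_trans ?_ (h T)
    refine Finset.sum_le_sum_of_subset_of_nonneg ?_ fun K _ _ => hμ.nonneg K
    intro K hK
    simp only [Finset.mem_filter, Finset.mem_univ, true_and] at hK ⊢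
    exact hAA hK

end Pool.Agent.ISA
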