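import Pool.Agent.helper14.ISO.LVS
import Pool.Agent.helper20.ISA.CPL
import Pool.Agent.helper20.ISA.DSQ
import Pool.Agent.helper20.ISO.MLS
import Pool.Agent.helper21.ISO.LIM
import Pool.Agent.helper23.ISO.CIR
import Pool.Agent.helper24.ISO.VVL
import Pool.Agent.helper25.ISO.UPB
import Pool.Agent.helper26.ISA.PB2
import Pool.Agent.helper26.ISO.IDE
import Pool.Agent.helper27.ISA.DNQ
import Pool.Agent.helper27.ISA.ODD
import Pool.Agent.helper27.ISA.PRL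
import Pool.Agent.helper40.ISA.LEX
import Pool.Agent.helper40.ISO.LEX
import Pool.Agent.helper43.ISA.PUB
import Pool.Agent.helper43.ISO.THB
import Pool.Agent.helper48.ISA.UNP
import Pool.Agent.helper49.ISO.HIN
import Pool.Agent.helper50.ISA.COR
import Pool.Agent.helper50.ISA.TSZ
import Pool.Agent.helper51.ISO.VVA
import Pool.Agent.helper59.ISO.LVW
import Pool.Agent.helper59.ISO.PTL
import Pool.Agent.helper59.ISO.UNN
import Pool.Agent.helper64.ISA.DES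
import Pool.Agent.helper64.ISO.CNT
import Pool.Agent.helper65.ISO.IPC
import Pool.Agent.helper69.ISA.THA
import Pool.Agent.helper69.ISO.PRM
import Pool.Agent.helper74.ISO.THL
import Pool.Agent.helper76.ISO.IPS
import Pool.Agent.helper76.ISO.SEL
import Pool.Agent.helper77.ISA.PB1
import Pool.Agent.helper78.ISO.TBS
import Pool.Agent.helper79.ISO.GRD
import Pool.Agent.helper80.ISA.BIM
import Pool.Agent.helper89.ISO.PTU
import Pool.Agent.helper90.ISA.CMQ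
import Pool.Agent.helper90.ISO.WTC
import Pool.Agent.helper91.ISA.SND
import Pool.Agent.helper91.ISO.TWO
import Pool.Agent.helper92.ISA.FNQ
import Pool.Agent.helper92.ISA.HYP
import Pool.Agent.helper92.ISA.TRN
import Pool.Agent.helper96.ISO.VVP
import Pool.Agent.helper97.ISO.BET
import Pool.Agent.helper64.PB.Asm

/-! Assembly of the project ISO / ISA (MP_069684_lc). -/

set_option autoImplicit false

namespace Pool.Agent.ISA.Asm

theorem aBIM : Pool.Agent.ISA.BIM_stmt := Pool.Agent.ISA.BIM_proof 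
theorem aHYP : Pool.Agent.ISA.HYP_stmt := Pool.Agent.ISA.HYP_proof aBIM
theorem oPRM : Pool.Agent.ISO.PRM_stmt := Pool.Agent.ISO.PRM_proof 
theorem aCMQ : Pool.Agent.ISA.CMQ_stmt := Pool.Agent.ISA.CMQ_proof aHYP oPRM
theorem oCIR : Pool.Agent.ISO.CIR_stmt := Pool.Agent.ISO.CIR_proof 
theorem oCNT : Pool.Agent.ISO.CNT_stmt := Pool.Agent.ISO.CNT_proof 
theorem oSEL : Pool.Agent.ISO.SEL_stmt := Pool.Agent.ISO.SEL_proof 
theorem aTSZ : Pool.Agent.ISA.TSZ_stmt := Pool.Agent.ISA.TSZ_proof oCIR oCNT oSEL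
theorem oLVW : Pool.Agent.ISO.LVW_stmt := Pool.Agent.ISO.LVW_proof 
theorem oWTC : Pool.Agent.ISO.WTC_stmt := Pool.Agent.ISO.WTC_proof oLVW
theorem aSND : Pool.Agent.ISA.SND_stmt := Pool.Agent.ISA.SND_proof oWTC
theorem aCPL : Pool.Agent.ISA.CPL_stmt := Pool.Agent.ISA.CPL_proof 
theorem oGRD : Pool.Agent.ISO.GRD_stmt := Pool.Agent.ISO.GRD_proof 
theorem aCOR : Pool.Agent.ISA.COR_stmt := Pool.Agent.ISA.COR_proof oCIR aTSZ aSND aCPL oGRD
theorem oPTU : Pool.Agent.ISO.PTU_stmt := Pool.Agent.ISO.PTU_proof 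
theorem aDES : Pool.Agent.ISA.DES_stmt := Pool.Agent.ISA.DES_proof oPTU
theorem oBET : Pool.Agent.ISO.BET_stmt := Pool.Agent.ISO.BET_proof 
theorem oTHL : Pool.Agent.ISO.THL_stmt := Pool.Agent.ISO.THL_proof oPRM oBET
theorem aTRN : Pool.Agent.ISA.TRN_stmt := Pool.Agent.ISA.TRN_proof 
theorem aTHA : Pool.Agent.ISA.THA_stmt := Pool.Agent.ISA.THA_proof oTHL aTRN
theorem aDNQ : Pool.Agent.ISA.DNQ_stmt := Pool.Agent.ISA.DNQ_proof aTHA aCMQ aDES
theorem aDSQ : Pool.Agent.ISA.DSQ_stmt := Pool.Agent.ISA.DSQ_proof aDNQ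
theorem oLVS : Pool.Agent.ISO.LVS_stmt := Pool.Agent.ISO.LVS_proof oCIR oSEL
theorem aUNP : Pool.Agent.ISA.UNP_stmt := Pool.Agent.ISA.UNP_proof oCIR
theorem aPUB : Pool.Agent.ISA.PUB_stmt := Pool.Agent.ISA.PUB_proof oLVS aUNP aCOR Pool.Agent.PB.pDNF
theorem oIPC : Pool.Agent.ISO.IPC_stmt := Pool.Agent.ISO.IPC_proof 
theorem oVVP : Pool.Agent.ISO.VVP_stmt := Pool.Agent.ISO.VVP_proof oIPC
theorem oPTL : Pool.Agent.ISO.PTL_stmt := Pool.Agent.ISO.PTL_proof 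
theorem oVVL : Pool.Agent.ISO.VVL_stmt := Pool.Agent.ISO.VVL_proof oVVP oPTL
theorem oIPS : Pool.Agent.ISO.IPS_stmt := Pool.Agent.ISO.IPS_proof oCIR oCNT
theorem oVVA : Pool.Agent.ISO.VVA_stmt := Pool.Agent.ISO.VVA_proof oCIR oVVL oIPS
theorem oUNN : Pool.Agent.ISO.UNN_stmt := Pool.Agent.ISO.UNN_proof 
theorem oLEX : Pool.Agent.ISO.LEX_stmt := Pool.Agent.ISO.LEX_proof oCIR oSEL oUNN
theorem aLEX : Pool.Agent.ISA.LEX_stmt := Pool.Agent.ISA.LEX_proof oLEX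
theorem aPRL : Pool.Agent.ISA.PRL_stmt := Pool.Agent.ISA.PRL_proof aTHA oPTL
theorem oHIN : Pool.Agent.ISO.HIN_stmt := Pool.Agent.ISO.HIN_proof oIPC
theorem oMLS : Pool.Agent.ISO.MLS_stmt := Pool.Agent.ISO.MLS_proof oHIN oPTL
theorem oTBS : Pool.Agent.ISO.TBS_stmt := Pool.Agent.ISO.TBS_proof oCIR oIPS
theorem aPB1 : Pool.Agent.ISA.PB1_stmt := Pool.Agent.ISA.PB1_proof aPRL oMLS oTBS
theorem aPB2 : Pool.Agent.ISA.PB2_stmt := Pool.Agent.ISA.PB2_proof aTHA aPB1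
theorem oTHB : Pool.Agent.ISO.THB_stmt := Pool.Agent.ISO.THB_proof oTHL
theorem oTWO : Pool.Agent.ISO.TWO_stmt := Pool.Agent.ISO.TWO_proof oPRM oTHB
theorem oIDE : Pool.Agent.ISO.IDE_stmt := Pool.Agent.ISO.IDE_proof 
theorem oUPB : Pool.Agent.ISO.UPB_stmt := Pool.Agent.ISO.UPB_proof oIDE
theorem oLIM : Pool.Agent.ISO.LIM_stmt := Pool.Agent.ISO.LIM_proof oTHB oUPB
theorem aODD : Pool.Agent.ISA.ODD_stmt := Pool.Agent.ISA.ODD_proof oPRM aTHA
theorem aFNQ : Pool.Agent.ISA.FNQ_stmt := Pool.Agent.ISA.FNQ_proof aDSQ aPUB oVVA aLEX aPB2 oTWO oLIM aODD aTRN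

end Pool.Agent.ISA.Asm
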