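import Pool.Agent.helper92.ISO.Defs

/-!
# MP_069684 (P/Poly versus NP/Poly): the sharp threshold of pruning, general target sets: definitions

`A` = the set of the allowed numbers of witnesses after the pruning (`{1}`: isolation; the odd numbers: parity).
-/

set_option autoImplicit false

namespace Pool.Agent.ISA

open Pool.Agent.PB Pool.Agent.ISO

open Classical in
/-- Randomised non-uniform pruning of witnesses (given by the list of its outcomes): at most `B` verifiers `W i` with circuits of
size at most `B` which accept only witnesses of `f`, such that for every input `x` with at least `1` and at most `m`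
witnesses the number of witnesses of `W i` is in `A` for a fraction at least `p` of the `W i`. -/
def Prun {n w : ℕ} (m : ℕ) (A : Set ℕ) (p : ℝ) (B : ℕ) (f : BF (n + w)) : Prop :=
  ∃ (k : ℕ) (W : Fin k → BF (n + w)), 1 ≤ k ∧ k ≤ B ∧ (∀ i, Size std (W i) B) ∧
    (∀ i z, W i z = true → f z = true) ∧
    ∀ x, 1 ≤ wit f x → wit f x ≤ m → p * k ≤ ((Finset.univ.filter fun i => wit (W i) x ∈ A).card : ℝ)

/-- All verifiers of polynomial size can be pruned in polynomial size: inputs of length `n` with `1` to `m n` witnesses
get a number of witnesses in `A n` with probability at least `p n`. -/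
def AllPrun (m : ℕ → ℕ) (A : ℕ → Set ℕ) (p : ℕ → ℝ) : Prop :=
  ∀ (w : ℕ → ℕ) (V : ∀ n, BF (n + w n)) (c : ℕ), (∀ n, w n ≤ n ^ c + c ∧ Size std (V n) (n ^ c + c)) →
    ∃ c' : ℕ, ∀ n, Prun (m n) (A n) (p n) (n ^ c' + c') (V n)

open Classical in
/-- For every set `T` the probability of `|T ∩ K| ∈ A` is at most `q`. -/
def Val {R : ℕ} (A : Set ℕ) (q : ℝ) (μ : Finset (Fin R) → ℝ) : Prop :=
  ∀ T : Finset (Fin R), ∑ K with (T ∩ K).card ∈ A, μ K ≤ q

/-- The critical probability: the value of the game in which the first player chooses a probability distribution on the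
nonempty finite sets `K` with at most `m` elements, the second player chooses a set `T`, and the second player gets
the probability of `|T ∩ K| ∈ A`. -/
noncomputable def crit (m : ℕ) (A : Set ℕ) : ℝ :=
  sInf {q : ℝ | ∃ (R : ℕ) (μ : Finset (Fin R) → ℝ), Strat R m μ ∧ Val A q μ}

/-- The condition of the theorem: `p` is above the critical probability, at least for at most `n^(1/2-ε)` witnesses, or
`A = {1}` and at least for at most `n^(1-ε)` witnesses. -/
def Abv (ε : ℝ) (m : ℕ) (A : Set ℕ) (n : ℕ) (p : ℝ) : Prop :=
  (1 + ε) * crit (min m ⌊(n : ℝ) ^ (1 / 2 - ε)⌋₊) A ≤ p ∨ (A = {1} ∧ (1 + ε) * crit (min m ⌊(n : ℝ) ^ (1 - ε)⌋₊) A ≤ p)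

end Pool.Agent.ISA
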