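import Pool.Agent.helper92.ISA.Spec

/-!
# Project ISO (MP_069684_lc), general target sets, `m(n) ≤ n^(1-ε)` for ALL target sets: rows `isa:XXX`

Compression of the universe to `O(m)` points (instead of `m²`): sampling `t` of `R` points without replacement is, up to the factor `(R+1)/(R-t+1)`, dominated by the binomial distribution.
Rows: file `Pool/Agent/<seat>/ISA/XXX.lean`, `import Pool.Agent.helper92.ISA.Spec2`, namespace `Pool.Agent.ISA`, `open Pool.Agent.PB Pool.Agent.ISO`, theorem `XXX_proof : XXX_stmt`, rows in `from` are hypotheses.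
-/

set_option autoImplicit false

open Filter Topology

namespace Pool.Agent.ISA

open Pool.Agent.PB Pool.Agent.ISO

/-- **Row BIM** (short-medium; pure). Let `B n i = C(n,i) x^i (1-x)^(n-i)`. (1) `B n i (n - i) = B (n-1) i · n (1-x)` and `B n (i+1) (i+1) = B (n-1) i · n x`; the two denominators have the sum `n + 1`, the two numerators the sum `n B (n-1) i`: so one of the two ratios is `≥ n/(n+1)`, i.e.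
`B (n-1) i ≤ (n+1)/n · max (B n i) (B n (i+1))`. Iterate from `a` to `R` (telescoping). (2) `x = τ/R`: `B R (i+1)/B R i = (R-i) x/((i+1)(1-x))` is `≥ 1` for `i + 1 ≤ τ` and `≤ 1` for `i ≥ τ`. (`τ = 0`, `τ = R` separately: `B R i = 0` for `i ≠ τ`.) -/
def BIM_stmt : Prop :=
  (∀ (a R i : ℕ) (x : ℝ), 0 ≤ x → x ≤ 1 → a ≤ R → i ≤ a → ∃ i', i' ≤ R ∧
    (a.choose i : ℝ) * x ^ i * (1 - x) ^ (a - i) ≤ ((R : ℝ) + 1) / ((a : ℝ) + 1) * ((R.choose i' : ℝ) * x ^ i' * (1 - x) ^ (R - i'))) ∧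
  ∀ R τ i : ℕ, 1 ≤ R → τ ≤ R → i ≤ R →
    (R.choose i : ℝ) * ((τ : ℝ) / R) ^ i * (1 - (τ : ℝ) / R) ^ (R - i) ≤ (R.choose τ : ℝ) * ((τ : ℝ) / R) ^ τ * (1 - (τ : ℝ) / R) ^ (R - τ)

/-- **Row HYP** (short-medium; from BIM). If the left side is not zero then `j ≤ τ`, `t - j ≤ R - τ`. `C(τ,j) C(R-τ,t-j)/C(R,t) = C(t,j) C(R-t,τ-j)/C(R,τ)`. With `x = τ/R`, `0 < x < 1`: the left side is `B t j · B (R-t) (τ-j) / B R τ`, and `B (R-t) (τ-j) ≤ (R+1)/(R-t+1) · B R τ` by BIM (1), (2). (`τ = 0`, `τ = R`: direct.) -/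
def HYP_stmt : Prop := ∀ R τ t j : ℕ, 1 ≤ R → τ ≤ R → t ≤ R → j ≤ t →
  ((τ.choose j : ℝ) * ((R - τ).choose (t - j) : ℝ)) / (R.choose t : ℝ) ≤
    ((R : ℝ) + 1) / ((R : ℝ) - t + 1) * ((t.choose j : ℝ) * ((τ : ℝ) / R) ^ j * (1 - (τ : ℝ) / R) ^ (t - j))

/-- **Row CMQ** (compression; medium; from HYP, ISO.PRM). `μ'(K') = ∑_(|K| = |K'|) μ(K) / C(R,|K|)` (a uniform set of the size of `K`; `|K| ≤ m ≤ R`). For `T ⊆ Fin R`, `τ = |T|`, `x = τ/R`: the number of the `t`-sets `K'` with `|T ∩ K'| = j` is `C(τ,j) C(R-τ,t-j)`, so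
`∑_(K' : |T ∩ K'| ∈ A) μ'(K') = ∑_K μ(K) ∑_(j ∈ A, j ≤ |K|) C(τ,j) C(R-τ,|K|-j)/C(R,|K|) ≤ (R+1)/(R-m+1) ∑_K μ(K) ∑_(j ∈ A) C(|K|,j) x^j (1-x)^(|K|-j)` (HYP), and by PRM (multiply `Val A q μ` for `T''` by `x^|T''| (1-x)^(R'-|T''|)` and sum over `T''`)
`∑_K μ(K) ∑_(j ∈ A) C(|K|,j) x^j (1-x)^(|K|-j) ≤ q`. -/
def CMQ_stmt : Prop := ∀ (m : ℕ) (A : Set ℕ) (R R' : ℕ) (q : ℝ) (μ : Finset (Fin R') → ℝ), 1 ≤ R → m ≤ R → Strat R' m μ → Val A q μ →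
  ∃ μ' : Finset (Fin R) → ℝ, Strat R m μ' ∧ Val A (((R : ℝ) + 1) / ((R : ℝ) - m + 1) * q) μ'

/-- **Row DNQ** (numbers; short-medium; from THA, CMQ, DES; compare DNU (helper87/ISO/DNU.lean)). Let `ε ≤ 1` (otherwise `ε = 1`), `θ = crit m A`, `1/θ ≤ 2 (ln(2m) + 1) ≤ 4 (1 + ln m)`. A strategy with value `≤ (1 + ε/8) θ`; CMQ with `R = ⌈(1 + 8/ε) m⌉`: `(R+1)/(R-m+1) ≤ 1 + ε/8`, value `≤ (1 + ε/8)² θ`;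
DES with `lam = ε/8`, `M = ⌈64 R/(ε² θ)⌉`: at most `((1 + ε/8)³ + ε/8) θ M < (1 + ε) θ M ≤ p M`. -/
def DNQ_stmt : Prop := ∀ ε : ℝ, 0 < ε → ∃ C : ℝ, ∀ (m : ℕ) (A : Set ℕ) (p : ℝ), 1 ≤ m → 1 ∈ A → (1 + ε) * crit m A ≤ p →
  ∃ (M R : ℕ) (K : Fin M → Finset (Fin R)), 1 ≤ M ∧ (M : ℝ) ≤ C * (m : ℝ) * (1 + Real.log m) ∧ (R : ℝ) ≤ C * (m : ℝ) ∧ Dsg m A p K

/-- **Row DSQ** (supply of designs; short-medium; from DNQ; compare DSP (helper80/ISO/DSP.lean)). For `n ≥ 1` the floor is `≥ 1`; DNQ for `m' = min m ⌊n^(1-ε)⌋`: `M ≤ C n^(1-ε) (1 + ln n) ≤ n^(1-ε/2)` and `R ≤ C n^(1-ε) ≤ n` for large `n`. A design for `m' ≤ m` is a design for `m`. -/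
def DSQ_stmt : Prop := ∀ (ε : ℝ) (m : ℕ → ℕ) (A : ℕ → Set ℕ) (p : ℕ → ℝ), 0 < ε → ε < 1 → (∀ n, 1 ≤ m n) → (∀ n, 1 ∈ A n) →
  (∀ᶠ n : ℕ in atTop, (1 + ε) * crit (min (m n) ⌊(n : ℝ) ^ (1 - ε)⌋₊) (A n) ≤ p n) →
    ∀ᶠ N : ℕ in atTop, ∃ (M R : ℕ) (K : Fin M → Finset (Fin R)), 1 ≤ M ∧ (M : ℝ) ≤ (N : ℝ) ^ (1 - ε / 2) ∧ R ≤ N ∧
      Dsg (m N) (A N) (p N) K

/-- **Row FNQ** (short; from DSQ, PUB, ISO.VVA, LEX, PB2, ISO.TWO, ISO.LIM, ODD, TRN; = FIN (helper98/ISA/FIN.lean) with DSQ instead of DSP). -/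
def FNQ_stmt : Prop :=
  (∀ (ε : ℝ) (m : ℕ → ℕ) (A : ℕ → Set ℕ) (p : ℕ → ℝ), 0 < ε → ε < 1 → (∀ n, 1 ≤ m n) → (∀ n, 1 ∈ A n) → (∀ n, p n ≤ 1) →
    (∀ᶠ n : ℕ in atTop, (1 + ε) * crit (min (m n) ⌊(n : ℝ) ^ (1 - ε)⌋₊) (A n) ≤ p n) →
      (AllPrun m A p ↔ ∀ L : Lang, InPPoly L ↔ InNPPoly L)) ∧
  (∀ (ε : ℝ) (m : ℕ → ℕ) (A : ℕ → Set ℕ) (p : ℕ → ℝ) (c : ℕ), 0 < ε → (∀ n, 1 ≤ m n) → (∀ n, m n ≤ n ^ c + c) → (∀ n, 1 ∈ A n) →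
    (∀ n, p n ≤ (1 - ε) * crit (m n) (A n)) → AllPrun m A p) ∧
  crit 2 {1} = 1 / 2 ∧ (∀ m : ℕ, 2 ≤ m → crit m {c | Odd c} = 1 / 2) ∧
  (∀ m κ : ℕ, 1 ≤ κ → κ ≤ m → crit m (Set.Icc 1 κ) ≤ (harmonic κ : ℝ) / (harmonic m : ℝ)) ∧
  ∀ κ : ℕ, 1 ≤ κ → Tendsto (fun m : ℕ => crit m (Set.Icc 1 κ) * Real.log m) atTop (𝓝 (harmonic κ : ℝ))

end Pool.Agent.ISA
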